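import Pool.Agent.Y243.SPL.Final

/-!
# Quotients of supercompact Prikry forcing with large antichains, without GCH

Let `κ ≤ μ` be cardinals with `2 ^ μ = μ⁺` and `μ ^ (< κ) = μ` (both follow from the generalised
continuum hypothesis when `κ ≤ cf(μ)`), let `λ = μ⁺` and let `U` be any fine normal measure on
`P_κ(λ)`.  There is a complete subalgebra `B` of the Boolean completion of the supercompact Prikry
forcing `P_U` such that, if `G` is generic for `P_U` and `H = G ∩ B`, some condition forces that
`P_U/H` has an antichain of size `λ⁺` in `V[G]`.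
-/

namespace Pool.Agent.Results.MP_60f81f_lc.LocalHypotheses

open Cardinal Pool.Agent.W872.SP

/-- Instead of the generalised continuum hypothesis two local cardinal equalities at `μ`
suffice. -/
theorem result (κ μ : Cardinal.{0}) (hκμ : κ ≤ μ)
    (h : (2 ^ μ = Order.succ μ ∧ μ ^< κ ≤ μ) ∨ (GCH ∧ κ ≤ μ.ord.cof))
    (U : Ultrafilter (PK κ (Order.succ μ).ord.ToType)) (hU : FineNormal κ U) :
    ∃ B : Set (Set (Cond κ U)), CompleteSubalgebra B ∧
      HasAntichain (fun (p : Cond κ U) b => p ∈ b) B (Order.succ (Order.succ μ)) := by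
  rcases h with ⟨h1, h2⟩ | ⟨hG, hcof⟩
  · exact Pool.Agent.Y243.SPL.antichain_local h1 h2 (typeLT_toType _)
      (Pool.Agent.W872.SP.mk_toType _) hκμ hU
  · exact antichain_of_gch hG (typeLT_toType _) (Pool.Agent.W872.SP.mk_toType _) hκμ hcof hU

end Pool.Agent.Results.MP_60f81f_lc.LocalHypotheses
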